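import Pool.Agent.N408.IB.Stm

/-!
# IB/LOC: locality of `Leg` for the glued profile (helper749)
-/

set_option autoImplicit false

open Real Set MeasureTheory

namespace N749.IB.LOC

open IB408

lemma leg_congr {h g : ℝ → ℝ} {θ θ' : ℝ} (H : ∀ d ∈ Icc (-1 : ℝ) 1, h (θ + d) = g (θ' + d)) :
    Leg h θ = Leg g θ' := by
  unfold Leg
  congr 1
  exact image_congr fun d hd => by rw [H d hd]

lemma leg_neg {h g : ℝ → ℝ} {θ θ' : ℝ} (H : ∀ d ∈ Icc (-1 : ℝ) 1, h (θ - d) = g (θ' + d)) :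
    Leg h θ = Leg g θ' := by
  unfold Leg
  congr 1
  ext y
  constructor
  · rintro ⟨d, hd, rfl⟩
    have hd' : -d ∈ Icc (-1 : ℝ) 1 := ⟨by linarith [hd.2], by linarith [hd.1]⟩
    refine ⟨-d, hd', ?_⟩
    have h1 := H (-d) hd'
    rw [sub_neg_eq_add] at h1
    simp only [cos_neg]
    rw [h1]
  · rintro ⟨d, hd, rfl⟩
    have hd' : -d ∈ Icc (-1 : ℝ) 1 := ⟨by linarith [hd.2], by linarith [hd.1]⟩
    refine ⟨-d, hd', ?_⟩
    have h1 := H d hd
    rw [sub_eq_add_neg] at h1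
    simp only [cos_neg]
    rw [h1]

lemma b_pos : 0 < b := by unfold b; norm_num

lemma al_bd (h3 : S_ODD1) : 0 < al ∧ al ≤ 1 / 100000 := by
  obtain ⟨⟨h1, h2, -⟩, -⟩ := h3
  have hb : b = 1 / 1000000 := rfl
  rw [hb] at h1 h2
  constructor <;> linarith

lemma c_bd (h3 : S_ODD1) : 99 / 100 ≤ c ∧ c ^ 2 = 1 - b ^ 2 := by
  obtain ⟨⟨-, -, h1, h2, -, -, -, h3⟩, -⟩ := h3
  constructor
  · have hb : b = 1 / 1000000 := rfl
    rw [hb] at h3
    norm_num at h3 ⊢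
    linarith
  · have := sin_sq_add_cos_sq al
    rw [h1, h2] at this
    linarith

lemma oc_cos {x y : ℝ} (h : cos x = cos y) : oc x = oc y := by
  unfold oc
  rw [h]

lemma ob_sin {w x y : ℝ} (h : sin x = sin y) : ob w x = ob w y := by
  unfold ob
  rw [h]

/-- the arcsine is large -/
lemma arcsin_ge {t : ℝ} (ht : b ≤ |t|) : al ≤ |arcsin t| := by
  rcases le_total 0 t with h | h
  · rw [abs_of_nonneg h] at ht
    exact (monotone_arcsin ht).trans (le_abs_self _)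
  · rw [abs_of_nonpos h] at ht
    have := monotone_arcsin ht
    rw [arcsin_neg] at this
    exact this.trans (neg_le_abs _)

lemma oc0 (h3 : S_ODD1) {x : ℝ} (hs : b ≤ |sin x|) : oc x = 0 := by
  obtain ⟨hc1, hc2⟩ := c_bd h3
  obtain ⟨-, -, -, -, -, h, -⟩ := h3
  apply h
  by_contra hlt
  push Not at hlt
  have h1 := sin_sq_add_cos_sq x
  have h2 : b ^ 2 ≤ sin x ^ 2 := by
    rw [← sq_abs (sin x)]
    exact pow_le_pow_left₀ b_pos.le hs 2
  nlinarith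

lemma sb (h3 : S_ODD1) {x : ℝ} (h1 : al ≤ |x|) (h2 : |x| ≤ π - al) : b ≤ |sin x| := by
  obtain ⟨ha0, ha1⟩ := al_bd h3
  have hsin : sin al = b := h3.1.2.2.1
  have key : b ≤ sin |x| := by
    rw [← hsin]
    rcases le_total |x| (π / 2) with h | h
    · exact sin_le_sin_of_le_of_le_pi_div_two (by linarith [pi_pos]) h h1
    · rw [← sin_pi_sub |x|]
      exact sin_le_sin_of_le_of_le_pi_div_two (by linarith [pi_pos]) (by linarith) (by linarith)
  have h4 : sin |x| ≤ |sin x| := by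
    rcases abs_cases x with ⟨h, -⟩ | ⟨h, -⟩
    · rw [h]; exact le_abs_self _
    · rw [h, sin_neg]; exact neg_le_abs _
  exact key.trans h4

lemma cos_ge {x : ℝ} (hx : |x| ≤ 5 / 4) : 7 / 32 ≤ cos x := by
  have h1 := one_sub_sq_div_two_le_cos (x := x)
  have h2 : x ^ 2 ≤ (5 / 4) ^ 2 := by
    rw [← sq_abs]
    exact pow_le_pow_left₀ (abs_nonneg x) hx 2
  linarith

section

variable (h3 : S_ODD1) (h4 : S_ODD2) (h5 : S_BAS1) {q : ℝ → ℝ} {w : ℝ} (hq : Adm q) (hw0 : 0 ≤ w)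
  (hw1 : w ≤ 1 / 10)

include h5 hq in
lemma st0 {t : ℝ} (ht : b ≤ |t|) : st q (arcsin t) = 0 :=
  (h5 q hq).2.2.2.2.2.2.2.1 _ (arcsin_ge ht)

include h3 h4 h5 hq hw0 hw1

lemma cap {ψ : ℝ} (hc' : b ≤ cos ψ) :
    hfin q w ψ = hc q 1 ψ ∧ hfin q w (π - ψ) = hc q (-1) ψ := by
  have hcp : 0 < c := h3.1.2.2.2.2.1
  have e1 : st q (arcsin (cos ψ)) = 0 := st0 h5 hq (hc'.trans (le_abs_self _))
  have e2 : st q (arcsin (cos (π - ψ))) = 0 := by
    apply st0 h5 hq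
    rw [cos_pi_sub, abs_neg]
    exact hc'.trans (le_abs_self _)
  have e3 : oc (π - ψ) = 0 := by
    apply h3.2.2.2.2.2.1
    rw [cos_pi_sub]
    linarith [b_pos]
  have e4 : ob w (π / 2 - ψ) = 0 := by
    apply (h4 w hw0 hw1).2.2.2.1
    rw [sin_pi_div_two_sub]
    exact hc'.trans (le_abs_self _)
  have e5 : ob w (π / 2 - (π - ψ)) = 0 := by
    apply (h4 w hw0 hw1).2.2.2.1
    rw [sin_pi_div_two_sub, cos_pi_sub, abs_neg]
    exact hc'.trans (le_abs_self _)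
  constructor
  · unfold hfin hc
    rw [e1, e3, e4]
    ring
  · unfold hfin hc
    rw [e2, e3, e5, sin_pi_sub, sub_sub_cancel]
    ring

lemma belt {γ : ℝ} (hγ : |γ| ≤ 5 / 4) : hfin q w (π / 2 - γ) = hb q w γ := by
  have hcos := cos_ge hγ
  obtain ⟨hc1, hc2⟩ := c_bd h3
  have hpi := pi_gt_three
  have hbv : b = 1 / 1000000 := rfl
  have hsin : |sin γ| ≤ c := by
    by_contra hlt
    push Not at hlt
    have h1 := sin_sq_add_cos_sq γ
    have h2 : c ^ 2 ≤ sin γ ^ 2 := by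
      rw [← sq_abs (sin γ)]
      exact pow_le_pow_left₀ (by linarith) hlt.le 2
    nlinarith
  have e1 : q (sin (π / 2 - γ)) = 0 := by
    apply hq.2.2.1
    rw [sin_pi_div_two_sub]
    refine le_trans ?_ (le_abs_self _)
    rw [hbv]
    linarith
  have e2 : arcsin (cos (π / 2 - γ)) = γ := by
    rw [cos_pi_div_two_sub]
    have := abs_le.1 hγ
    exact arcsin_sin (by linarith) (by linarith)
  have e3 : oc (π / 2 - γ) = 0 := by
    apply h3.2.2.2.2.2.1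
    rw [cos_pi_div_two_sub]
    exact (le_abs_self _).trans hsin
  have e4 : oc (π - (π / 2 - γ)) = 0 := by
    apply h3.2.2.2.2.2.1
    rw [cos_pi_sub, cos_pi_div_two_sub]
    exact (neg_le_abs _).trans hsin
  unfold hfin hb
  rw [e1, e2, e3, e4, sub_sub_cancel]
  ring

lemma one {ψ : ℝ} (hs : b ≤ |sin ψ|) (hc' : b ≤ |cos ψ|) : hfin q w ψ = 1 := by
  have e1 : st q (arcsin (cos ψ)) = 0 := st0 h5 hq hc'
  have e2 : oc ψ = 0 := oc0 h3 hs
  have e3 : oc (π - ψ) = 0 := oc0 h3 (by rwa [sin_pi_sub])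
  have e4 : ob w (π / 2 - ψ) = 0 := by
    apply (h4 w hw0 hw1).2.2.2.1
    rwa [sin_pi_div_two_sub]
  have e5 : q (sin ψ) = 0 := hq.2.2.1 _ hs
  unfold hfin
  rw [e1, e2, e3, e4, e5]
  ring

omit h4 h5 hq hw0 hw1 in
lemma both {ψ : ℝ} (h1 : -1 ≤ ψ) (h2 : ψ ≤ π / 2 + 1) (h6 : al ≤ |ψ|) (h7 : al ≤ |π / 2 - ψ|) :
    b ≤ |sin ψ| ∧ b ≤ |cos ψ| := by
  obtain ⟨ha0, ha1⟩ := al_bd h3
  have hpi := pi_gt_d2
  constructor
  · refine sb h3 h6 (abs_le.2 ⟨?_, ?_⟩) <;> linarith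
  · rw [← sin_pi_div_two_sub]
    refine sb h3 h7 (abs_le.2 ⟨?_, ?_⟩) <;> linarith

/-- the values of the profile in the middle zone -/
lemma mid (h7 : S_END1) (h8 : ∀ σ : ℝ, σ = 1 ∨ σ = -1 → ∀ ψ, |ψ| ≤ al →
      cos (al - |ψ|) ≤ hc q σ ψ) {θ : ℝ} (h1 : al ≤ θ) (h2 : θ ≤ π / 2 - al) {d : ℝ}
    (hd : |d| ≤ 1) : cos d ≤ hfin q w (θ + d) ∧ cos d ≤ hfin q w (π - (θ + d)) := by
  obtain ⟨ha0, ha1⟩ := al_bd h3
  have hpi := pi_gt_d2
  have hd' := abs_le.1 hd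
  obtain ⟨ψ, hψ⟩ : ∃ ψ, ψ = θ + d := ⟨_, rfl⟩
  rw [← hψ]
  have hmono : ∀ x : ℝ, 0 ≤ x → x ≤ |d| → cos d ≤ cos x := fun x hx0 hx => by
    rw [← cos_abs d]
    exact cos_le_cos_of_nonneg_of_le_pi hx0 (by linarith) hx
  by_cases hA : |ψ| ≤ al
  · have hcos : b ≤ cos ψ := by
      have := cos_ge (x := ψ) (by linarith)
      have hb : b = 1 / 1000000 := rfl
      rw [hb]
      linarith
    obtain ⟨e1, e2⟩ := cap h3 h4 h5 hq hw0 hw1 hcos
    have hx : al - |ψ| ≤ |d| := by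
      have i1 := le_abs_self ψ
      have i2 := neg_le_abs d
      linarith
    have h9 := hmono (al - |ψ|) (by linarith) hx
    rw [e1, e2]
    exact ⟨h9.trans (h8 1 (Or.inl rfl) ψ hA), h9.trans (h8 (-1) (Or.inr rfl) ψ hA)⟩
  by_cases hB : |π / 2 - ψ| ≤ al
  · have e1 := belt h3 h4 h5 hq hw0 hw1 (γ := π / 2 - ψ) (by linarith)
    have e2 := belt h3 h4 h5 hq hw0 hw1 (γ := -(π / 2 - ψ)) (by rw [abs_neg]; linarith)
    rw [sub_sub_cancel] at e1
    have e3 : π / 2 - -(π / 2 - ψ) = π - ψ := by ring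
    rw [e3] at e2
    have hx : al - |π / 2 - ψ| ≤ |d| := by
      have i1 := le_abs_self (π / 2 - ψ)
      have i2 := le_abs_self d
      linarith
    have h9 := hmono (al - |π / 2 - ψ|) (by linarith) hx
    rw [e1, e2]
    refine ⟨h9.trans (h7 q w hq hw0 hw1 _ hB), ?_⟩
    have h10 := h7 q w hq hw0 hw1 (-(π / 2 - ψ)) (by rwa [abs_neg])
    rw [abs_neg] at h10
    exact h9.trans h10
  push Not at hA hB
  obtain ⟨i1, i2⟩ := both h3 (ψ := ψ) (by linarith) (by linarith) hA.le hB.le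
  rw [one h3 h4 h5 hq hw0 hw1 i1 i2, one h3 h4 h5 hq hw0 hw1 (ψ := π - ψ) (by rwa [sin_pi_sub])
    (by rwa [cos_pi_sub, abs_neg])]
  exact ⟨cos_le_one d, cos_le_one d⟩

end

/-- IB/LOC -/
theorem t (h1 : S_L1) (h3 : S_ODD1) (h4 : S_ODD2) (h5 : S_BAS1) (h7 : S_END1) (h8 : S_END2) :
    IB408.S_LOC := by
  intro q w hsol
  obtain ⟨hq, hw0, hw1, -, -⟩ := id hsol
  have h8' := h8 q w hsol
  obtain ⟨ha0, ha1⟩ := al_bd h3
  have hpi := pi_gt_d2
  have hb : b = 1 / 1000000 := rfl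
  have h4' := h4 w hw0 hw1
  have h5' := h5 q hq
  have hcont : Continuous (hfin q w) := by
    have i1 := hq.1
    have i2 : Continuous (st q) := h5'.2.2.2.2.1
    have i3 : Continuous oc := h3.2.1
    have i4 : Continuous (ob w) := h4'.1
    unfold hfin
    fun_prop
  have hbd : ∀ ψ, |hfin q w ψ - 1| ≤ 1 / 100 := by
    intro ψ
    have i1 := abs_le.1 (hq.2.2.2 (sin ψ))
    have i2 := abs_le.1 (h5'.2.2.2.2.2.1 (arcsin (cos ψ)))
    have i3 := h3.2.2.2.1 ψ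
    have i4 := h3.2.2.2.2.1 ψ
    have i5 := h3.2.2.2.1 (π - ψ)
    have i6 := h3.2.2.2.2.1 (π - ψ)
    have i7 := h4'.2.2.1 (π / 2 - ψ)
    have i8 : w * (3 / 10) * b ^ 3 ≤ 1 / 10 * (3 / 10) * b ^ 3 := by
      have := pow_pos b_pos 3
      gcongr
    have i9 := abs_le.1 (i7.trans i8)
    rw [hb] at i1 i2 i4 i6 i9
    norm_num at i1 i2 i4 i6 i9
    unfold hfin
    rw [abs_le]
    constructor <;> linarith [i1.1, i1.2, i2.1, i2.2, i9.1, i9.2]
  obtain ⟨hL1, hL2, -⟩ := h1 (hfin q w) hcont (fun ψ => (hbd ψ).trans (by norm_num))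
  have hcapcos : ∀ x : ℝ, |x| ≤ 1 / 4 → ∀ d ∈ Icc (-1 : ℝ) 1, |x + d| ≤ 5 / 4 := by
    intro x hx d hd
    have := abs_le.1 hx
    rw [abs_le]
    constructor <;> linarith [hd.1, hd.2]
  have hbc : ∀ x : ℝ, |x| ≤ 5 / 4 → b ≤ cos x := by
    intro x hx
    have := cos_ge hx
    rw [hb]
    linarith
  have hleg : ∀ θ : ℝ, al ≤ θ → θ ≤ π / 2 - al →
      Leg (hfin q w) θ = 1 ∧ Leg (hfin q w) (π - θ) = 1 := by
    intro θ hθ1 hθ2
    obtain ⟨i1, i2⟩ := both h3 (ψ := θ) (by linarith) (by linarith)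
      (hθ1.trans (le_abs_self _)) ((by linarith : al ≤ π / 2 - θ).trans (le_abs_self _))
    have e1 := one h3 h4 h5 hq hw0 hw1 i1 i2
    have e2 := one h3 h4 h5 hq hw0 hw1 (ψ := π - θ) (by rwa [sin_pi_sub])
      (by rwa [cos_pi_sub, abs_neg])
    have h0 : (0 : ℝ) ∈ Icc (-1 : ℝ) 1 := by constructor <;> norm_num
    have hcd : ∀ d ∈ Icc (-1 : ℝ) 1, 0 < cos d := by
      intro d hd
      have := cos_ge (x := d) (by rw [abs_le]; constructor <;> linarith [hd.1, hd.2])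
      linarith
    constructor
    · apply le_antisymm
      · have := hL2 θ 0 h0
        rwa [add_zero, cos_zero, div_one, e1] at this
      · obtain ⟨d, hd, e⟩ := hL1 θ
        rw [e, le_div_iff₀ (hcd d hd), one_mul]
        exact (mid h3 h4 h5 hq hw0 hw1 h7 h8' hθ1 hθ2 (abs_le.2 hd)).1
    · apply le_antisymm
      · have := hL2 (π - θ) 0 h0
        rwa [add_zero, cos_zero, div_one, e2] at this
      · obtain ⟨d, hd, e⟩ := hL1 (π - θ)
        rw [e, le_div_iff₀ (hcd d hd), one_mul]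
        have hd' : |-d| ≤ 1 := by rw [abs_neg]; exact abs_le.2 hd
        have h9 := (mid h3 h4 h5 hq hw0 hw1 h7 h8' hθ1 hθ2 hd').2
        rw [cos_neg] at h9
        have e3 : π - (θ + -d) = π - θ + d := by ring
        rwa [e3] at h9
  refine ⟨hcont, ?_, ?_, hbd, ?_, ?_, ?_, hleg, ?_, ?_⟩
  · intro ψ
    unfold hfin
    rw [sin_neg, hq.2.1, cos_neg, h3.2.2.1 ψ,
      oc_cos (x := π - -ψ) (y := π - ψ) (by rw [cos_pi_sub, cos_pi_sub, cos_neg]),
      ob_sin (w := w) (x := π / 2 - -ψ) (y := π / 2 - ψ)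
        (by rw [sin_pi_div_two_sub, sin_pi_div_two_sub, cos_neg])]
  · intro ψ
    unfold hfin
    rw [sin_add_two_pi, cos_add_two_pi, oc_cos (x := ψ + 2 * π) (y := ψ) (cos_add_two_pi ψ),
      oc_cos (x := π - (ψ + 2 * π)) (y := π - ψ)
        (by rw [cos_pi_sub, cos_pi_sub, cos_add_two_pi]),
      ob_sin (w := w) (x := π / 2 - (ψ + 2 * π)) (y := π / 2 - ψ)
        (by rw [sin_pi_div_two_sub, sin_pi_div_two_sub, cos_add_two_pi])]
  · intro θ hθ
    exact leg_congr fun d hd =>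
      (cap h3 h4 h5 hq hw0 hw1 (hbc _ (hcapcos θ hθ d hd))).1
  · intro θ hθ
    refine leg_neg fun d hd => ?_
    have h9 := (cap h3 h4 h5 hq hw0 hw1 (hbc _ (hcapcos θ hθ d hd))).2
    have e3 : π - (θ + d) = π - θ - d := by ring
    rwa [e3] at h9
  · intro β hβ
    refine leg_neg fun d hd => ?_
    have h9 := belt h3 h4 h5 hq hw0 hw1 (hcapcos β hβ d hd)
    have e3 : π / 2 - (β + d) = π / 2 - β - d := by ring
    rwa [e3] at h9
  · have h0 : b ≤ cos 0 := by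
      rw [cos_zero, hb]
      norm_num
    obtain ⟨e1, e2⟩ := cap h3 h4 h5 hq hw0 hw1 h0
    rw [sub_zero] at e2
    have hoc : 0 < oc 0 := by
      have hc1 : c < 1 := h3.1.2.2.2.2.2.1
      unfold oc
      rw [cos_zero, max_eq_left (by linarith)]
      have : 0 < 1 - c := by linarith
      positivity
    rw [e1, e2]
    unfold hc
    linarith
  · obtain ⟨i1, i2⟩ := both h3 (ψ := π / 4) (by linarith) (by linarith)
      ((by linarith : al ≤ π / 4).trans (le_abs_self _))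
      ((by linarith : al ≤ π / 2 - π / 4).trans (le_abs_self _))
    rw [one h3 h4 h5 hq hw0 hw1 i1 i2, one h3 h4 h5 hq hw0 hw1 (ψ := π - π / 4)
      (by rwa [sin_pi_sub]) (by rwa [cos_pi_sub, abs_neg])]

end N749.IB.LOC
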